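import Pool.Agent.SigB.Bridge

/-!
No model of ZFC satisfies the statement `S`.

The axioms of ZFC (`IsZFC`), the formulas with bounded quantifiers (`D0`), and the notions of set
theory evaluated in a structure `(M, ∈)` are defined in `Pool/Agent/SigB/Defs.lean`.
-/

universe u

namespace Pool.Agent.Results.MP_13a02f_lc.Inconsistent

open Pool.Agent.SigB

/-- No model `(M, ∈)` of ZFC satisfies `S`: in no model of ZFC are there a limit `κ` of `ω`-many
measurable cardinals, a set `D` of subsets of `κ` with `|D| > κ` and a well-ordering `R` of `D`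
which is definable by a `Σ₁`-formula with parameter `κ`, even if a further parameter `p ∈ H(κ)` is
allowed. -/
theorem result : ¬ ∃ (M : Type u) (_ : Membership M M) (_ : IsZFC M) (κ D p : M)
    (R : M → M → Prop), IsLimitOfMeasurables κ ∧ (∀ x, x ∈ D → IsSub x κ) ∧ CardGt D κ ∧
      IsWellOrderingOf R D ∧ MemH κ p ∧ SigmaOneDefinable R κ p := by
  rintro ⟨M, _, _, κ, D, p, R, hκ, hD, hcard, hR, hp, hd⟩
  exact no_definable hκ hD hcard hR hp hd

end Pool.Agent.Results.MP_13a02f_lc.Inconsistent
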